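import Mathlib
import Pool.Agent.K4H21.CT.TypesOrd
import Pool.Agent.TH170.GS.TB
import Pool.Agent.X303.KThms

/-!
# Parshin's conjecture on K-theory for the smooth projective varieties generated by abelian varieties
with suitable slope types, for every CM field

Over an algebraic closure of the field with `p` elements each abelian variety is isogenous to the
reduction of an abelian variety of CM type (Honda, Tate). So an abelian variety over the field with
`p ^ a` elements is modelled by `RedAV`: a finite product of CM types `(E i, Φ i)` with Weil numbers
`π i ∈ E i` that satisfy the formula of Shimura and Taniyama; its cohomology of degree `n`, with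
coefficients in an algebraically closed field `Ω`, consists of the alternating `n`-forms on
`Ω ⊗ H_1`, on which the Frobenius endomorphism acts by `π`. We fix an isomorphism `ν` of the algebraic
closure of `ℚ_p` with `ℂ`; it defines a `p`-adic valuation of `ℂ`, with the value one at `p`.

Let `K` be a CM field of degree `2 g`. A CM type `Φ` of `K` (a choice of one element out of each
complex conjugate pair of embeddings; there are `2 ^ g` types) and a real number `κ ≠ 0` prescribe the
slopes `(a + κ) / 2` (at the embeddings in `Φ`) and `(a - κ) / 2` (outside of `Φ`) of a Weil number in
`K` (`HasSlopes`, with the weights `M = 1`). The case `κ = a` is the ordinary case.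

The CM field `K` is called exceptional (`IsExceptional`) if it is normal over `ℚ` and its Galois group
is the dihedral group of order `4` (the biquadratic CM fields) or the dihedral group of order `8`.
The exceptional fields have no primitive CM types; so they are not endomorphism algebras of simple
abelian varieties of CM type of dimension `g`, and (the restriction of the type to a subfield
determines the slopes) all ordinary Weil numbers in `K` have powers that do not generate `K`.

The theorem: let `K i` be finitely many CM fields that are not exceptional and pairwise independent:
for `i ≠ k` and all complex embeddings `φ` of `K i` and `ψ` of `K k` some automorphism of `ℂ` is the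
identity on `φ (K i)` and the complex conjugation on `ψ (K k)` (this is no condition for one field).
There is no condition on the Galois groups. Then there are primitive CM types `Φ i` of the `K i` such
that the following is true for all prime numbers `p` and all `ν`. Let `𝒞` (`OfTypes`) be the class of
the abelian varieties `Y` each of whose factors is supersingular or has a Frobenius endomorphism some
power of which is, for some `i`, a Weil number in `K i` with the slopes prescribed by `Φ i` and some
real number `κ i ≠ 0` (which depends only on `Y` and `i`). So `Y` is, over an algebraic closure,
isogenous to a product of powers of one abelian variety for each `i`, with the given slopes, and of a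
supersingular one. Let `𝒢` be the smallest class (`Generated`) of schemes `X` of finite type over a
finite field that contains those with the homology groups of abelian varieties in `𝒞`
(`IsAbelianOfTypes`), that is closed under direct summands of finite sums of twists of motives, and
that contains all of a closed subscheme `Z` of `X`, `X` and `X ∖ Z` if it contains two of them. It
contains for instance all products of varieties in `𝒞`, all products of curves with Jacobians in `𝒞`
and of open subsets of such curves, symmetric powers of them, and the singular and the open varieties
with a stratification by such varieties. Then Parshin's conjecture is true for all smooth projective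
`X` in `𝒢` (`Holds`): `K_m(X) ⊗ ℚ = 0` for all `m ≥ 1`.

Moreover the classes are not small: if `p` splits completely in the fields `K i` then there are
ordinary Weil numbers `π i ∈ K i` with the types `Φ i` all powers of which generate `K i`, so by Honda
and Tate `𝒞` contains a geometrically simple ordinary abelian variety with endomorphism algebra `K i`
for each `i` (and all products of powers of them and of supersingular abelian varieties).

So every CM field that is the endomorphism algebra of a simple abelian variety of CM type with
`2 dim = [K : ℚ]` is the endomorphism algebra of a geometrically simple ordinary abelian variety over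
a finite field such that Parshin's conjecture is true for all its powers; the exceptional fields are
no such endomorphism algebras.

`Homology Ω V` are data of motivic homology `M X i j = H_i^M(X, ℚ(j)) = CH_j(X, i - 2 j) ⊗ ℚ` and of
`ℓ`-adic homology `E X i j = H_i(X, ℚ_ℓ(j))` (coefficients extended to `Ω`) of schemes `X` of finite
type over a finite field (the elements of `V`), with the Frobenius and the regulator. Smooth projective
schemes are `IsPure` by the theorem of Deligne. The groups `G m = K_m(X)` are groups that embed, up to
torsion, into the sum of the groups `H_(m + 2 j)^M(X, ℚ(j)) = CH_j(X, m) ⊗ ℚ` (`IsKTheory`; Bloch,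
Levine). Properties of the theory of cycles that are used for the abelian varieties (`IsChow`,
`IsMotivic`): Poincaré duality, the formal properties of correspondences, the nilpotence of
homologically trivial correspondences (Kimura), the operation of the Frobenius endomorphism on higher
Chow groups, the vanishing of the higher rational `K`-groups of a finite field (Quillen), and the
algebraicity of the classes in `Alg` (of which only products of classes of divisors matter here,
theorem of Tate). The passage from the Tate conjecture to all degrees and to the class `Generated` is
due to Soulé, Geisser, Kahn and Jannsen.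

New is the existence of the types for all CM fields; before (`AlmostAllSlopeTypes`) it was known only
that for suitable CM fields of large degree most types have the property. The sign functions of the
types satisfy no linear relations except the obvious ones. They are constructed by group theory: if
the Galois group `G` of the normal closure is not a 2-group one takes a half system of the cosets
`G / H` that is invariant on both sides under suitable subgroups and changes one coset, and a
divisibility argument shows that there is no relation; if `G` is a 2-group one distinguishes whether
the complex conjugation belongs to a normal Klein four-group or not.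
-/

namespace Pool.Agent.K4H21.Old.EveryCMField

open NumberField Module Pool.Agent.H204R3.CM Pool.Agent.H977R3.CM Pool.Agent.TH170

open Pool.Agent.W495.TA Pool.Agent.W495.FM Pool.Agent.X303.TBDual Pool.Agent.K4H22.ZeroOne

/-- The CM field `E` is exceptional: it is normal over the rational numbers and its Galois group is
the dihedral group of order `4` (the Klein four-group) or the dihedral group of order `8`. -/
def IsExceptional (E : Type) [Field E] [NumberField E] : Prop :=
  IsGalois ℚ E ∧ (Nonempty ((E ≃ₐ[ℚ] E) ≃* DihedralGroup 2) ∨
    Nonempty ((E ≃ₐ[ℚ] E) ≃* DihedralGroup 4))

/-- The CM type `Φ` of `E` is primitive: it is not induced from a proper subfield of `E`.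
Equivalently the abelian varieties of CM type `(E, Φ)` are simple. -/
def Primitive {E : Type} [Field E] [NumberField E] (Φ : Set (E →+* ℂ)) : Prop :=
  ∀ F : IntermediateField ℚ E,
    (∀ φ ψ : E →+* ℂ, (∀ x ∈ F, φ x = ψ x) → (φ ∈ Φ ↔ ψ ∈ Φ)) → F = ⊤

/-- Parshin's conjecture for the `K`-groups of the smooth projective `X` generated by abelian
varieties with the slope types `Φ`. -/
def Holds {p : ℕ} [Fact p.Prime] (ν : PadicAlgCl p ≃+* ℂ) {I : Type} (K : I → Type)
    [∀ i, Field (K i)] (Φ : ∀ i, Set (K i →+* ℂ)) : Prop :=
  ∀ (Ω : Type) [Field Ω] [IsAlgClosed Ω] [CharZero Ω] (V : Type) (T : Homology Ω V), IsHomology T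
  → ∀ X : V, Generated T (GS.IsAbelianOfTypes ν K (fun _ _ => 1) Φ T) X → ∀ (_ : IsPure T X)
  (G : ℤ → Type) [∀ m, AddCommGroup (G m)] (_ : IsKTheory T X G) (m : ℤ) (_ : 1 ≤ m) (x : G m),
  IsOfFinAddOrder x

/-- **For pairwise independent CM fields `K i` these are equivalent: no `K i` is exceptional; every
`K i` has a primitive CM type; there are primitive CM types `Φ i` of the `K i` such that, for all prime
numbers `p`, Parshin's conjecture is true for all smooth projective varieties generated by abelian
varieties with the slope types `Φ i`, among which are geometrically simple ordinary ones with the
endomorphism algebras `K i` if `p` splits completely in the `K i`.** -/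
theorem result {I : Type} [Fintype I] (K : I → Type) [∀ i, Field (K i)] [∀ i, NumberField (K i)]
    [∀ i, IsCMField (K i)] (hK : PairwiseIndep K) :
    List.TFAE [
      ∀ i, ¬ IsExceptional (K i),
      ∃ Φ : ∀ i, Set (K i →+* ℂ), ∀ i, IsCMType (Φ i) ∧ Primitive (Φ i),
      ∃ Φ : ∀ i, Set (K i →+* ℂ), (∀ i, IsCMType (Φ i) ∧ Primitive (Φ i)) ∧
        ∀ (p : ℕ) [Fact p.Prime] (ν : PadicAlgCl p ≃+* ℂ), Holds ν K Φ ∧
          ((∀ i, Splits p (K i)) → ∃ n : ℕ, 0 < n ∧ ∃ π ∈ Weil K p n,
            ∀ i, GS.HasSlopes ν (fun _ => 1) (Φ i) n n (π i) ∧
              ∀ s : ℕ, 0 < s → IntermediateField.adjoin ℚ {π i ^ s} = ⊤)] := by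
  tfae_have 1 → 3 := by
    intro h
    obtain ⟨Φ, hΦ, -⟩ := Pool.Agent.K4H21.CT.family K hK h
    refine ⟨Φ, fun i => ⟨(hΦ i).1, (hΦ i).2.1⟩, fun p _ ν => ⟨?_, fun hsplit => ?_⟩⟩
    · intro Ω _ _ _ V T hT X hX hpure G _ hG m hm x
      exact parshin_K hT (GS.tb_types (Pool.Agent.K4H21.CT.elementary hK (fun i => (hΦ i).1)
        fun i => (hΦ i).2.2) hT hX) hpure hG (by omega) x
    · obtain ⟨n, hn, π, hW, h1, hG⟩ := Pool.Agent.K4H21.CT.exists_of_types ν hK
        (fun i => (hΦ i).1) (fun i => (hΦ i).2.2) hsplit
      exact ⟨n, hn, π, hW, fun i => ⟨h1 i, hG.1 i⟩⟩
  tfae_have 3 → 2 := by
    rintro ⟨Φ, hΦ, -⟩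
    exact ⟨Φ, hΦ⟩
  tfae_have 2 → 1 := by
    rintro ⟨Φ, hΦ⟩ i hi
    exact Pool.Agent.K4H21.CT.not_primitive_of_exc (K i) hi (Φ i) (hΦ i).1 (hΦ i).2
  tfae_finish

end Pool.Agent.K4H21.Old.EveryCMField
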